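import Pool.Agent.Helper119.HC.Main

/-! MP_d9dd8c_co: for every `d ≥ 2` and every `p` divisible by `2 ^ (d + 2)`, regular `d`-handicap
graphs on `p` vertices exist in all degrees `r ≡ d (mod 2)` with `d + 2 ≤ r ≤ p - d - 4`. -/

namespace Pool.Agent.Results.MP_d9dd8c_co.AllDegrees

open Pool.Agent.Helper119.HC

theorem result (d p r : ℕ) (hd : 2 ≤ d) (hp : 2 ^ (d + 2) ∣ p) (hpar : r % 2 = d % 2)
    (h1 : d + 2 ≤ r) (h2 : r + d + 4 ≤ p) : Handicap p r d := by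
  obtain ⟨m, rfl⟩ := hp
  exact main d m r hd hpar h1 h2

end Pool.Agent.Results.MP_d9dd8c_co.AllDegrees
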