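import Pool.Agent.Helper119.HC.F45b
import Pool.Agent.Helper119.HC.F15

/-! MP_d9dd8c_co: `d = 1`, `p` an odd multiple of 15: every even `r` with `24 ≤ r ≤ p - 23` occurs
(and some smaller and larger values); if moreover `45 ∣ p`, then every even `r` with
`4 ≤ r ≤ p - 5` occurs, except possibly `r = 6`, `r = 12` and `r = p - 9`. -/

namespace Pool.Agent.Results.MP_d9dd8c_co.FortyFive

open Pool.Agent.Helper119.HC

theorem fortyfive (p r : ℕ) (hp : p % 90 = 45) (hr : r % 2 = 0) (h1 : 4 ≤ r) (h2 : r + 5 ≤ p)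
    (h6 : r ≠ 6) (h12 : r ≠ 12) (h9 : r + 9 ≠ p) : Handicap p r 1 := by
  obtain ⟨t, rfl⟩ : ∃ t, p = 45 * (2 * t + 1) := ⟨p / 90, by omega⟩
  have hc : r % 6 = 4 ∨ r % 6 = 2 ∨ r % 6 = 0 := by omega
  rcases hc with hc | hc | hc
  · obtain ⟨N, rfl⟩ : ∃ N, r = 4 + 6 * N := ⟨(r - 4) / 6, by omega⟩
    exact main45_0 t N (by omega)
  · by_cases h8 : r = 8
    · subst h8
      exact main45_8 t
    · obtain ⟨N, rfl⟩ : ∃ N, r = 14 + 6 * N := ⟨(r - 14) / 6, by omega⟩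
      exact main45_1 t N (by omega)
  · by_cases ha : r ≤ 90 * t + 18
    · obtain ⟨N, rfl⟩ : ∃ N, r = 18 + 6 * N := ⟨(r - 18) / 6, by omega⟩
      exact main45_18 t N (by omega)
    · by_cases hb : r ≤ 90 * t + 24
      · obtain ⟨N, rfl⟩ : ∃ N, r = 24 + 6 * N := ⟨(r - 24) / 6, by omega⟩
        exact main45_2 t N (by omega)
      · obtain ⟨N, rfl⟩ : ∃ N, r = 30 + 6 * N := ⟨(r - 30) / 6, by omega⟩
        exact main45_30 t N (by omega)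

theorem fifteen (p r : ℕ) (hp : p % 30 = 15)
    (hr : (r % 6 = 2 ∧ 8 ≤ r ∧ r + 7 ≤ p) ∨ (r % 6 = 0 ∧ 18 ≤ r ∧ r + 27 ≤ p) ∨
      (r % 6 = 4 ∧ 28 ≤ r ∧ r + 17 ≤ p)) : Handicap p r 1 := by
  obtain ⟨t, rfl⟩ : ∃ t, p = 15 * (2 * t + 1) := ⟨p / 30, by omega⟩
  rcases hr with ⟨hc, h1, h2⟩ | ⟨hc, h1, h2⟩ | ⟨hc, h1, h2⟩
  · obtain ⟨N, rfl⟩ : ∃ N, r = 8 + 6 * N := ⟨(r - 8) / 6, by omega⟩
    exact main15_0 t N (by omega)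
  · obtain ⟨N, rfl⟩ : ∃ N, r = 18 + 6 * N := ⟨(r - 18) / 6, by omega⟩
    exact main15_A {0} t N (by omega) (by decide) (by omega)
  · obtain ⟨N, rfl⟩ : ∃ N, r = 28 + 6 * N := ⟨(r - 28) / 6, by omega⟩
    exact main15_A {1, 2} t N (by omega) (by decide) (by omega)

theorem result (p r : ℕ) (hp : p % 30 = 15) :
    (r % 2 = 0 → 24 ≤ r → r + 23 ≤ p → Handicap p r 1) ∧
    ((r % 6 = 2 ∧ 8 ≤ r ∧ r + 7 ≤ p) ∨ (r % 6 = 0 ∧ 18 ≤ r ∧ r + 27 ≤ p) ∨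
      (r % 6 = 4 ∧ 28 ≤ r ∧ r + 17 ≤ p) → Handicap p r 1) ∧
    (45 ∣ p → r % 2 = 0 → 4 ≤ r → r + 5 ≤ p → r ≠ 6 → r ≠ 12 → r + 9 ≠ p → Handicap p r 1) := by
  refine ⟨?_, fifteen p r hp, ?_⟩
  · intro hr h1 h2
    apply fifteen p r hp
    omega
  · rintro ⟨m, rfl⟩ hr h1 h2 h6 h12 h9
    exact fortyfive _ r (by omega) hr h1 h2 h6 h12 h9

end Pool.Agent.Results.MP_d9dd8c_co.FortyFive
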