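import Pool.Agent.Helper119.HC.Main3

/-! MP_d9dd8c_co: regular `d`-handicap graphs of odd order: for every odd `d` and every odd `p`
divisible by `3 ^ ((d + 3) / 2)`, all degrees `r ≡ d + 3 (mod 6)` with
`d + 3 ≤ r ≤ p - 3 ^ ((d + 3) / 2) + d + 3` occur. -/

namespace Pool.Agent.Results.MP_d9dd8c_co.OddOrder

open Pool.Agent.Helper119.HC

theorem result (d p r : ℕ) (hd : d % 2 = 1) (hp : p % 2 = 1) (hdiv : 3 ^ ((d + 3) / 2) ∣ p)
    (hr : r % 6 = (d + 3) % 6) (h1 : d + 3 ≤ r) (h2 : r + 3 ^ ((d + 3) / 2) ≤ p + d + 3) :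
    Handicap p r d := by
  obtain ⟨k, rfl⟩ : ∃ k, d = 2 * k + 1 := ⟨d / 2, by omega⟩
  have e : (2 * k + 1 + 3) / 2 = k + 1 + 1 := by omega
  rw [e] at hdiv h2
  obtain ⟨m, rfl⟩ := hdiv
  have hm : m % 2 = 1 := by
    rcases Nat.even_or_odd m with hm | hm
    · exfalso
      have : Even (3 ^ (k + 1 + 1) * m) := Even.mul_left hm _
      rw [Nat.even_iff] at this
      omega
    · exact Nat.odd_iff.1 hm
  obtain ⟨t, rfl⟩ : ∃ t, m = 2 * t + 1 := ⟨m / 2, by omega⟩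
  obtain ⟨N, hN⟩ : ∃ N, r = 2 * (k + 1 + 1) + 6 * N := ⟨(r - (2 * k + 4)) / 6, by omega⟩
  subst hN
  have hd' : 2 * k + 1 = 2 * (k + 1) - 1 := by omega
  rw [hd']
  apply main3 t (k + 1) N (by omega)
  have e2 : 3 ^ (k + 1 + 1) * (2 * t + 1) = 2 * t * 3 ^ (k + 1 + 1) + 3 ^ (k + 1 + 1) := by ring
  rw [e2] at h2
  omega

end Pool.Agent.Results.MP_d9dd8c_co.OddOrder
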