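import Pool.Agent.Helper119.HC.Rot

/-! MP_d9dd8c_co: regular `d`-handicap graphs, `d ≥ 2`: all degrees for `p` divisible by
`2 ^ (d + 2)`; a long range of degrees for `p` divisible by `2 ^ (2 t + 1)`, where `d` is at most
the `t`-th Catalan number; and a new necessary condition for `p ≡ 2 (mod 4)`. -/

namespace Pool.Agent.Results.MP_d9dd8c_co.RangesAndParity

open Pool.Agent.Helper119.HC

theorem result (d : ℕ) (hd : 2 ≤ d) :
    (∀ p r : ℕ, 2 ^ (d + 2) ∣ p → r % 2 = d % 2 → d + 2 ≤ r → r + d + 4 ≤ p →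
      Handicap p r d) ∧
    (∀ t p r : ℕ, 2 ≤ t → (2 * t + 1) * d ≤ (2 * t + 1).choose t → 2 ^ (2 * t + 1) ∣ p →
      r % 2 = d % 2 → (2 * t + 1) * d ≤ r → r + (2 * t + 1) * d + 2 ≤ p → Handicap p r d) ∧
    (∀ p r : ℕ, p % 4 = 2 → Handicap p r d → r % 4 = (3 * d) % 4) := by
  refine ⟨?_, ?_, ?_⟩
  · rintro p r ⟨m, rfl⟩ hpar h1 h2
    exact main d m r hd hpar h1 h2
  · rintro t p r ht hc ⟨m, rfl⟩ hpar h1 h2
    exact main2 t d m r ht hc hpar h1 h2
  · intro p r hp h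
    exact nec hp h

end Pool.Agent.Results.MP_d9dd8c_co.RangesAndParity
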